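import Pool.Agent.Y690.PP.Stm

/-!
# Project PP (helper690), job PP-HR: upper bound for sums of multiplicative functions
-/

set_option autoImplicit false

open Finset

namespace Pool.Agent.Y665.PP

open Pool.Agent.Y690.PP

variable {P : Type} {N : P → ℕ} {s : P → P → ℝ} {t : P → ℝ}

theorem mem_PB (h : Basic N s t) (x : ℝ) (p : P) : p ∈ PB N x ↔ (N p : ℝ) ≤ x := by
  unfold PB
  rw [dif_pos (h.fin x), Set.Finite.mem_toFinset]
  rfl

theorem NN_pos (h : Basic N s t) (A : Finset P) : 0 < NN N A := by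
  unfold NN
  exact Finset.prod_pos fun p _ => by have := h.two_le p; omega

theorem le_NN (h : Basic N s t) {A : Finset P} {p : P} (hp : p ∈ A) : N p ≤ NN N A :=
  Nat.le_of_dvd (NN_pos h A) (Finset.dvd_prod_of_mem N hp)

theorem fin_FF (h : Basic N s t) (x : ℝ) : {A : Finset P | (NN N A : ℝ) ≤ x}.Finite := by
  refine Set.Finite.subset ((PB N x).powerset.finite_toSet) ?_
  intro A hA
  have hA' : (NN N A : ℝ) ≤ x := hA
  rw [Finset.mem_coe, Finset.mem_powerset]
  intro p hp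
  rw [mem_PB h]
  have h1 : (N p : ℝ) ≤ (NN N A : ℝ) := by exact_mod_cast le_NN h hp
  linarith

theorem mem_FF (h : Basic N s t) (x : ℝ) (A : Finset P) : A ∈ FF N x ↔ (NN N A : ℝ) ≤ x := by
  unfold FF
  rw [dif_pos (fin_FF h x), Set.Finite.mem_toFinset]
  rfl

theorem sub_PB (h : Basic N s t) {x : ℝ} {A : Finset P} (hA : A ∈ FF N x) : A ⊆ PB N x := by
  rw [mem_FF h] at hA
  intro p hp
  rw [mem_PB h]
  have h1 : (N p : ℝ) ≤ (NN N A : ℝ) := by exact_mod_cast le_NN h hp
  linarith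

/-- Moving one prime out of the set. -/
theorem second (h : Basic N s t) {C : ℝ}
    (hC : ∀ x : ℝ, 1 ≤ x → ∑ p ∈ PB N x, Real.log (N p) ≤ C * x)
    {g : P → ℝ} (g0 : ∀ p, 0 ≤ g p) (g1 : ∀ p, g p ≤ 1) (x : ℝ) :
    ∑ A ∈ FF N x, (∏ p ∈ A, g p) * Real.log (NN N A) ≤
      ∑ A ∈ FF N x, (∏ p ∈ A, g p) * (C * (x / NN N A)) := by
  classical
  have hlog : ∀ A : Finset P, Real.log (NN N A) = ∑ p ∈ A, Real.log (N p) := by
    intro A
    unfold NN
    rw [Nat.cast_prod, Real.log_prod]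
    intro p _
    have := h.two_le p
    have : N p ≠ 0 := by omega
    exact_mod_cast this
  have hl0 : ∀ p, 0 ≤ Real.log (N p) := by
    intro p
    apply Real.log_nonneg
    have := h.two_le p
    have : 1 ≤ N p := by omega
    exact_mod_cast this
  have hg0 : ∀ A : Finset P, 0 ≤ ∏ p ∈ A, g p := fun A => Finset.prod_nonneg fun p _ => g0 p
  -- the double sums
  have e1 : ∑ A ∈ FF N x, (∏ p ∈ A, g p) * Real.log (NN N A) =
      ∑ z ∈ (FF N x).sigma (fun A => A), (∏ p ∈ z.1, g p) * Real.log (N z.2) := by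
    rw [Finset.sum_sigma]
    refine Finset.sum_congr rfl fun A _ => ?_
    rw [hlog A, Finset.mul_sum]
  have e2 : ∑ z ∈ (FF N x).sigma (fun A => A), (∏ p ∈ z.1, g p) * Real.log (N z.2) ≤
      ∑ z ∈ (FF N x).sigma (fun A => PB N (x / NN N A)),
        (∏ p ∈ z.1, g p) * Real.log (N z.2) := by
    have hinj : ∑ z ∈ (FF N x).sigma (fun A => A), (∏ p ∈ z.1, g p) * Real.log (N z.2) ≤
        ∑ z ∈ (FF N x).sigma (fun A => A), (∏ p ∈ z.1.erase z.2, g p) * Real.log (N z.2) := by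
      refine Finset.sum_le_sum fun z hz => ?_
      rw [Finset.mem_sigma] at hz
      refine mul_le_mul_of_nonneg_right ?_ (hl0 _)
      rw [← Finset.mul_prod_erase z.1 g hz.2]
      have := hg0 (z.1.erase z.2)
      have := g1 z.2
      nlinarith
    refine hinj.trans ?_
    have himg : ∑ z ∈ (FF N x).sigma (fun A => A),
        (∏ p ∈ z.1.erase z.2, g p) * Real.log (N z.2) =
        ∑ w ∈ ((FF N x).sigma (fun A => A)).image
          (fun z : (_ : Finset P) × P => (⟨z.1.erase z.2, z.2⟩ : (_ : Finset P) × P)),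
          (∏ p ∈ w.1, g p) * Real.log (N w.2) := by
      rw [Finset.sum_image]
      rintro ⟨A, p⟩ hz ⟨A', p'⟩ hz' heq
      have hz1 : (⟨A, p⟩ : (_ : Finset P) × P) ∈ (FF N x).sigma (fun A => A) := hz
      have hz2 : (⟨A', p'⟩ : (_ : Finset P) × P) ∈ (FF N x).sigma (fun A => A) := hz'
      rw [Finset.mem_sigma] at hz1 hz2
      simp only [Sigma.mk.injEq, heq_eq_eq] at heq
      obtain ⟨h1, h2⟩ := heq
      subst h2
      have h4 : p ∈ A := hz1.2
      have h5 : p ∈ A' := hz2.2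
      have h3 : A = A' := by
        rw [← Finset.insert_erase h4, ← Finset.insert_erase h5, h1]
      rw [h3]
    rw [himg]
    apply Finset.sum_le_sum_of_subset_of_nonneg
    · intro w hw
      rw [Finset.mem_image] at hw
      obtain ⟨⟨A, p⟩, hz, rfl⟩ := hw
      rw [Finset.mem_sigma] at hz
      obtain ⟨hA, hp⟩ := hz
      have hA' := (mem_FF h x A).1 hA
      have hprod : NN N A = N p * NN N (A.erase p) := by
        unfold NN
        rw [Finset.mul_prod_erase A N hp]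
      have hpos : (0 : ℝ) < NN N (A.erase p) := by exact_mod_cast NN_pos h (A.erase p)
      have hp1 : (1 : ℝ) ≤ N p := by
        have := h.two_le p
        have : 1 ≤ N p := by omega
        exact_mod_cast this
      have hprod' : (NN N A : ℝ) = N p * NN N (A.erase p) := by exact_mod_cast hprod
      rw [Finset.mem_sigma]
      refine ⟨?_, ?_⟩
      · show A.erase p ∈ FF N x
        rw [mem_FF h]
        nlinarith
      · show p ∈ PB N (x / NN N (A.erase p))
        rw [mem_PB h, le_div_iff₀ hpos]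
        linarith
    · intro w _ _
      exact mul_nonneg (hg0 _) (hl0 _)
  rw [e1]
  refine e2.trans ?_
  rw [Finset.sum_sigma]
  refine Finset.sum_le_sum fun A hA => ?_
  show ∑ q ∈ PB N (x / NN N A), (∏ p ∈ A, g p) * Real.log (N q) ≤ _
  rw [← Finset.mul_sum]
  refine mul_le_mul_of_nonneg_left ?_ (hg0 A)
  apply hC
  have hA' := (mem_FF h x A).1 hA
  have hpos : (0 : ℝ) < NN N A := by exact_mod_cast NN_pos h A
  rw [le_div_iff₀ hpos]
  linarith

theorem t_HR {P : Type} (N : P → ℕ) (s : P → P → ℝ) (t : P → ℝ) (h : Basic N s t)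
    (h1 : A1 N) : HR N := by
  classical
  obtain ⟨C0, hC0⟩ := h1
  set C := |C0| with hCdef
  have hCn : 0 ≤ C := abs_nonneg _
  have hC : ∀ x : ℝ, 1 ≤ x → ∑ p ∈ PB N x, Real.log (N p) ≤ C * x := fun x hx =>
    (hC0 x hx).trans (mul_le_mul_of_nonneg_right (le_abs_self _) (by linarith))
  refine ⟨(1 + C) * Real.exp 1, by positivity, ?_⟩
  intro g g0 g1 x hx
  have hx0 : 0 < x := by linarith
  have hlx : 0 < Real.log x := Real.log_pos (by linarith)
  have hg0 : ∀ A : Finset P, 0 ≤ ∏ p ∈ A, g p := fun A => Finset.prod_nonneg fun p _ => g0 p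
  set σ := 1 + 1 / Real.log x with hσ
  set T := ∑ A ∈ FF N x, (∏ p ∈ A, g p) * (x / NN N A) with hT
  have hpos : ∀ A : Finset P, (0 : ℝ) < NN N A := fun A => by exact_mod_cast NN_pos h A
  -- first step
  have s1 : (∑ A ∈ FF N x, ∏ p ∈ A, g p) * Real.log x ≤ (1 + C) * T := by
    have e1 : (∑ A ∈ FF N x, ∏ p ∈ A, g p) * Real.log x =
        ∑ A ∈ FF N x, (∏ p ∈ A, g p) * Real.log (x / NN N A) +
          ∑ A ∈ FF N x, (∏ p ∈ A, g p) * Real.log (NN N A) := by
      rw [Finset.sum_mul, ← Finset.sum_add_distrib]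
      refine Finset.sum_congr rfl fun A _ => ?_
      rw [Real.log_div hx0.ne' (hpos A).ne']
      ring
    have e2 : ∑ A ∈ FF N x, (∏ p ∈ A, g p) * Real.log (x / NN N A) ≤ T := by
      refine Finset.sum_le_sum fun A _ => mul_le_mul_of_nonneg_left ?_ (hg0 A)
      have h3 : 0 < x / NN N A := div_pos hx0 (hpos A)
      have := Real.log_le_sub_one_of_pos h3
      linarith
    have e3 := second h hC g0 g1 x
    have e4 : ∑ A ∈ FF N x, (∏ p ∈ A, g p) * (C * (x / NN N A)) = C * T := by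
      rw [hT, Finset.mul_sum]
      exact Finset.sum_congr rfl fun A _ => by ring
    rw [e1]
    linarith
  -- second step
  have s2 : T ≤ x * (Real.exp 1 * Real.exp (∑ p ∈ PB N x, g p * (N p : ℝ) ^ (-σ))) := by
    have hpow : ∀ A : Finset P, (NN N A : ℝ) ^ (-σ) = ∏ p ∈ A, (N p : ℝ) ^ (-σ) := by
      intro A
      unfold NN
      rw [Nat.cast_prod, Real.finsetProd_rpow]
      intro p _
      exact Nat.cast_nonneg _
    have e1 : ∀ A ∈ FF N x, (∏ p ∈ A, g p) * (x / NN N A) ≤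
        x * (Real.exp 1 * ∏ p ∈ A, (g p * (N p : ℝ) ^ (-σ))) := by
      intro A hA
      have hA' := (mem_FF h x A).1 hA
      have h3 : (NN N A : ℝ)⁻¹ ≤ Real.exp 1 * (NN N A : ℝ) ^ (-σ) := by
        have h4 : (NN N A : ℝ) ^ (1 / Real.log x) ≤ Real.exp 1 := by
          rw [Real.rpow_def_of_pos (hpos A)]
          apply Real.exp_le_exp.mpr
          rw [mul_one_div, div_le_one hlx]
          exact Real.log_le_log (hpos A) hA'
        have h5 : (NN N A : ℝ)⁻¹ = (NN N A : ℝ) ^ (1 / Real.log x) * (NN N A : ℝ) ^ (-σ) := by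
          rw [← Real.rpow_add (hpos A), hσ, show 1 / Real.log x + -(1 + 1 / Real.log x) = -1 by ring,
            Real.rpow_neg_one]
        rw [h5]
        exact mul_le_mul_of_nonneg_right h4 (Real.rpow_nonneg (hpos A).le _)
      rw [Finset.prod_mul_distrib, ← hpow A, div_eq_mul_inv]
      have h6 := mul_le_mul_of_nonneg_left h3 (mul_nonneg (hg0 A) hx0.le)
      calc (∏ p ∈ A, g p) * (x * (NN N A : ℝ)⁻¹) = (∏ p ∈ A, g p) * x * (NN N A : ℝ)⁻¹ := by ring
        _ ≤ (∏ p ∈ A, g p) * x * (Real.exp 1 * (NN N A : ℝ) ^ (-σ)) := h6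
        _ = _ := by ring
    have hu0 : ∀ p, 0 ≤ g p * (N p : ℝ) ^ (-σ) := fun p =>
      mul_nonneg (g0 p) (Real.rpow_nonneg (Nat.cast_nonneg _) _)
    have e2 : ∑ A ∈ FF N x, ∏ p ∈ A, (g p * (N p : ℝ) ^ (-σ)) ≤
        ∑ A ∈ (PB N x).powerset, ∏ p ∈ A, (g p * (N p : ℝ) ^ (-σ)) := by
      apply Finset.sum_le_sum_of_subset_of_nonneg
      · intro A hA
        rw [Finset.mem_powerset]
        exact sub_PB h hA
      · intro A _ _
        exact Finset.prod_nonneg fun p _ => hu0 p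
    have e3 : ∑ A ∈ (PB N x).powerset, ∏ p ∈ A, (g p * (N p : ℝ) ^ (-σ)) =
        ∏ p ∈ PB N x, (1 + g p * (N p : ℝ) ^ (-σ)) := (Finset.prod_one_add _).symm
    have e4 : ∏ p ∈ PB N x, (1 + g p * (N p : ℝ) ^ (-σ)) ≤
        Real.exp (∑ p ∈ PB N x, g p * (N p : ℝ) ^ (-σ)) := by
      rw [Real.exp_sum]
      refine Finset.prod_le_prod (fun p _ => ?_) fun p _ => ?_
      · have := hu0 p
        linarith
      · have := Real.add_one_le_exp (g p * (N p : ℝ) ^ (-σ))
        linarith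
    calc T ≤ ∑ A ∈ FF N x, x * (Real.exp 1 * ∏ p ∈ A, (g p * (N p : ℝ) ^ (-σ))) :=
          Finset.sum_le_sum e1
      _ = x * (Real.exp 1 * ∑ A ∈ FF N x, ∏ p ∈ A, (g p * (N p : ℝ) ^ (-σ))) := by
          rw [Finset.mul_sum, Finset.mul_sum]
      _ ≤ x * (Real.exp 1 * Real.exp (∑ p ∈ PB N x, g p * (N p : ℝ) ^ (-σ))) := by
          apply mul_le_mul_of_nonneg_left _ hx0.le
          apply mul_le_mul_of_nonneg_left _ (Real.exp_pos _).le
          exact (e2.trans e3.le).trans e4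
  have s3 : (∑ A ∈ FF N x, ∏ p ∈ A, g p) * Real.log x ≤
      (1 + C) * (x * (Real.exp 1 * Real.exp (∑ p ∈ PB N x, g p * (N p : ℝ) ^ (-σ)))) :=
    s1.trans (mul_le_mul_of_nonneg_left s2 (by linarith))
  rw [← le_div_iff₀ hlx] at s3
  refine s3.trans (le_of_eq ?_)
  ring

end Pool.Agent.Y665.PP
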